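import Pool.Agent.helper12.DD.Spec2

set_option autoImplicit false

open Pool.Agent.helper49.Blk

namespace Pool.Agent.DD

/-- the components of a group normalised by `x` are normalised -/
theorem TPR_map {G T : Type} [Group G] (Q : Subgroup (T → G)) (x : T → G)
    (hx : x ∈ Subgroup.normalizer (Q : Set (T → G))) (t : T) (a : G) (ha : a ∈ cmp t Q) :
    x t * a * (x t)⁻¹ ∈ cmp t Q := by
  obtain ⟨q, hq, rfl⟩ := ha
  refine ⟨x * q * x⁻¹, ?_, by simp⟩
  exact ((Subgroup.mem_normalizer_iff.1 hx) q).1 hq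

theorem TPR_norm_of {G : Type} [Group G] (H Q : Subgroup G)
    (h : ∀ x ∈ H, ∀ q ∈ Q, x * q * x⁻¹ ∈ Q) : H ≤ Subgroup.normalizer (Q : Set G) := by
  intro x hx
  rw [Subgroup.mem_normalizer_iff]
  intro q
  constructor
  · exact h x hx q
  · intro hq
    have h1 := h x⁻¹ (H.inv_mem hx) _ hq
    have h2 : x⁻¹ * (x * q * x⁻¹) * x⁻¹⁻¹ = q := by group
    rwa [h2] at h1

theorem TPR_pg {G T : Type} [Group G] [Fintype T] (p : ℕ) (Q : T → Subgroup G)
    (hQ : ∀ t, IsPGroup p (Q t)) : IsPGroup p ↥(Subgroup.pi Set.univ Q) := by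
  rintro ⟨x, hx⟩
  have h : ∀ t, ∃ k : ℕ, x t ^ p ^ k = 1 := by
    intro t
    obtain ⟨k, hk⟩ := hQ t ⟨x t, hx t (Set.mem_univ t)⟩
    exact ⟨k, congrArg Subtype.val hk⟩
  choose k hk using h
  refine ⟨∑ t, k t, ?_⟩
  apply Subtype.ext
  change x ^ p ^ (∑ t, k t) = 1
  funext t
  rw [Pi.pow_apply]
  obtain ⟨m, hm⟩ : p ^ k t ∣ p ^ (∑ t, k t) :=
    pow_dvd_pow p (Finset.single_le_sum (fun i _ => Nat.zero_le (k i)) (Finset.mem_univ t))
  rw [hm, pow_mul, hk, one_pow]
  rfl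

/-- the main step -/
theorem TPR_step {G T : Type} [Group G] [Fintype T] [Finite G] (p : ℕ) (hp : p.Prime)
    (N : T → Subgroup G) (Q : Subgroup (T → G)) 
    (hop : IsOp p (Subgroup.pi Set.univ N ⊓ Subgroup.normalizer (Q : Set (T → G))) Q) :
    Q = Subgroup.pi Set.univ (fun t => cmp t Q) := by
  obtain ⟨⟨hQle, hQp, hQn⟩, hub⟩ := hop
  have hQH : Q ≤ Subgroup.pi Set.univ N := hQle.trans inf_le_left
  set R : Subgroup (T → G) := Subgroup.pi Set.univ (fun t => cmp t Q) with hRdef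
  have hQR : Q ≤ R := by
    intro x hx t _
    exact ⟨x, hx, rfl⟩
  have hRp : IsPGroup p R := TPR_pg p _ (fun t => hQp.map _)
  have hRH : R ≤ Subgroup.pi Set.univ N := by
    intro x hx t _
    obtain ⟨q, hq, hqt⟩ := hx t (Set.mem_univ t)
    have h1 := hQH hq t (Set.mem_univ t)
    have h2 : q t = x t := hqt
    rw [← h2]
    exact h1
  have hmem : R ⊓ Subgroup.normalizer (Q : Set (T → G)) ∈
      {Q' : Subgroup (T → G) | Q' ≤ Subgroup.pi Set.univ N ⊓
          Subgroup.normalizer (Q : Set (T → G)) ∧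
        IsPGroup p Q' ∧ Subgroup.pi Set.univ N ⊓ Subgroup.normalizer (Q : Set (T → G)) ≤
          Subgroup.normalizer (Q' : Set (T → G))} := by
    refine ⟨inf_le_inf_right _ hRH, hRp.to_le inf_le_left, ?_⟩
    apply TPR_norm_of
    rintro x ⟨hxH, hxN⟩ q ⟨hqR, hqN⟩
    refine ⟨?_, ?_⟩
    · intro t _
      exact TPR_map Q x hxN t (q t) (hqR t (Set.mem_univ t))
    · exact Subgroup.mul_mem _ (Subgroup.mul_mem _ hxN hqN) (Subgroup.inv_mem _ hxN)
  have hle : R ⊓ Subgroup.normalizer (Q : Set (T → G)) ≤ Q := hub hmem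
  by_contra hne
  have hnt : Q.subgroupOf R < ⊤ := by
    rw [lt_top_iff_ne_top]
    intro htop
    exact hne (le_antisymm hQR (Subgroup.subgroupOf_eq_top.1 htop))
  have : Fact p.Prime := ⟨hp⟩
  have : Group.IsNilpotent R := hRp.isNilpotent
  have hnc : NormalizerCondition R := Group.normalizerCondition_of_isNilpotent
  have hlt2 := hnc _ hnt
  obtain ⟨x, hx, hxn⟩ := SetLike.exists_of_lt hlt2
  apply hxn
  rw [Subgroup.mem_subgroupOf]
  apply hle
  refine ⟨x.2, Subgroup.mem_normalizer_iff.2 ?_⟩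
  rw [Subgroup.mem_normalizer_iff] at hx
  intro q
  constructor
  · intro hq
    exact (hx ⟨q, hQR hq⟩).1 hq
  · intro hq
    have hq2 : (x : T → G) * q * (x : T → G)⁻¹ ∈ R := hQR hq
    have hq3 : q ∈ R := by
      have h3 := R.mul_mem (R.mul_mem (R.inv_mem x.2) hq2) x.2
      have h4 : (x : T → G)⁻¹ * ((x : T → G) * q * (x : T → G)⁻¹) * (x : T → G) = q := by group
      rwa [h4] at h3
    exact (hx ⟨q, hq3⟩).2 hq

theorem TPR_nor {G T : Type} [Group G] (Q : Subgroup (T → G))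
    (h : Q = Subgroup.pi Set.univ (fun t => cmp t Q)) (N : T → Subgroup G) :
    Subgroup.pi Set.univ N ⊓ Subgroup.normalizer (Q : Set (T → G)) =
      Subgroup.pi Set.univ (fun t => N t ⊓ Subgroup.normalizer (cmp t Q : Set G)) := by
  classical
  apply le_antisymm
  · rintro x ⟨hxH, hxN⟩ t _
    refine ⟨hxH t (Set.mem_univ t), ?_⟩
    have hxi : x⁻¹ ∈ Subgroup.normalizer (Q : Set (T → G)) := inv_mem hxN
    change x t ∈ Subgroup.normalizer (cmp t Q : Set G)
    rw [Subgroup.mem_normalizer_iff]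
    intro a
    constructor
    · exact TPR_map Q x hxN t a
    · intro ha
      have h1 := TPR_map Q x⁻¹ hxi t _ ha
      have h2 : x⁻¹ t * (x t * a * (x t)⁻¹) * (x⁻¹ t)⁻¹ = a := by
        rw [Pi.inv_apply]
        group
      rwa [h2] at h1
  · intro x hx
    refine ⟨fun t ht => (hx t ht).1, ?_⟩
    change x ∈ Subgroup.normalizer (Q : Set (T → G))
    rw [Subgroup.mem_normalizer_iff]
    intro q
    have key : ∀ t, q t ∈ cmp t Q ↔ x t * q t * (x t)⁻¹ ∈ cmp t Q := fun t =>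
      Subgroup.mem_normalizer_iff.1 (hx t (Set.mem_univ t)).2 (q t)
    constructor
    · intro hq
      rw [h] at hq ⊢
      intro t ht
      exact (key t).1 (hq t ht)
    · intro hq
      rw [h] at hq ⊢
      intro t ht
      exact (key t).2 (hq t ht)

theorem TPR_RT {G T : Type} [Group G] [Fintype T] [Finite G] (p : ℕ) (hp : p.Prime)
    (C : List (Subgroup (T → G))) : ∀ (N : T → Subgroup G) (P : Subgroup (T → G)),
    RT p (Subgroup.pi Set.univ N) P C → ∀ R ∈ C, R = Subgroup.pi Set.univ (fun t => cmp t R) := by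
  induction C with
  | nil => intro N P _ R hR; simp at hR
  | cons Q C ih =>
    rintro N P ⟨-, h2, h3⟩
    have hQ := TPR_step p hp N Q h2
    rw [TPR_nor Q hQ N] at h3
    intro R hR
    rcases List.mem_cons.1 hR with rfl | hR
    · exact hQ
    · exact ih _ _ h3 R hR

theorem TPR : TPR_stmt := by
  intro G T _ _ _ p hp C hC
  obtain ⟨P₀, C', rfl, h0, h1⟩ := (RAD (T → G) p C).1 hC
  have htop : (⊤ : Subgroup (T → G)) = Subgroup.pi Set.univ (fun _ => (⊤ : Subgroup G)) := by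
    symm
    rw [eq_top_iff]
    intro x _ t _
    trivial
  have hP : P₀ = Subgroup.pi Set.univ (fun t => cmp t P₀) := by
    apply TPR_step p hp (fun _ => ⊤)
    have h2 : Subgroup.normalizer (P₀ : Set (T → G)) = ⊤ := top_le_iff.1 h0.1.2.2
    rw [← htop, h2, top_inf_eq]
    exact h0
  intro R hR
  rcases List.mem_cons.1 hR with rfl | hR
  · exact hP
  · rw [htop] at h1
    exact TPR_RT p hp C' _ _ h1 R hR

end Pool.Agent.DD
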